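import Pool.Agent.Q123.NW.Subst
import Pool.Agent.Results.MP_5d2531_al.BlockTriangular

/-!
Problem MP_5d2531_al (`n`-central polynomials): for an odd prime `n`, a constant plus a combination
of fewer than `2 ^ n` products of polynomials in disjoint sets of variables, whose commutative
images are not constant, is not `n`-central.
-/

set_option autoImplicit false

namespace Pool.Agent.Results.MP_5d2531_al.DisjointSubstitution

/-- Every value of `f` on `n × n` matrices over `K` is a scalar matrix. -/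
def ScalarValued {K : Type} [Field K] {σ : Type} (n : ℕ) (f : FreeAlgebra K σ) : Prop :=
  ∀ X : σ → Matrix (Fin n) (Fin n) K, ∃ c : K, FreeAlgebra.lift K X f = Matrix.scalar (Fin n) c

/-- `f` is central for `M_n(K)`: all values are scalar and `f` is not identically zero. -/
def IsCentral {K : Type} [Field K] {σ : Type} (n : ℕ) (f : FreeAlgebra K σ) : Prop :=
  ScalarValued n f ∧ ∃ X : σ → Matrix (Fin n) (Fin n) K, FreeAlgebra.lift K X f ≠ 0

/-- `f` is `ν`-central for `M_n(K)`: `ν` is the least positive integer with `f ^ ν` central. -/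
def IsNuCentral {K : Type} [Field K] {σ : Type} (n ν : ℕ) (f : FreeAlgebra K σ) : Prop :=
  0 < ν ∧ IsCentral n (f ^ ν) ∧ ∀ μ : ℕ, 0 < μ → IsCentral n (f ^ μ) → ν ≤ μ

/-- The coefficient of the word `l` in `f`. -/
noncomputable def coef {K : Type} [Field K] {σ : Type} (f : FreeAlgebra K σ) (l : List σ) : K :=
  (FreeAlgebra.equivMonoidAlgebraFreeMonoid f).coeff (FreeMonoid.ofList l)

/-- The polynomial `f (h₁, h₂, …)`, where `h i` is a polynomial in the variables `(i, s)`,
`s ∈ σ i`, so that the `h i` are polynomials in pairwise disjoint sets of variables. -/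
noncomputable def subst {K : Type} [Field K] {τ : Type} {σ : τ → Type} (f : FreeAlgebra K τ)
    (h : ∀ i, FreeAlgebra K (σ i)) : FreeAlgebra K (Σ i, σ i) :=
  FreeAlgebra.lift K
    (fun i => FreeAlgebra.lift K (fun s : σ i => FreeAlgebra.ι K (⟨i, s⟩ : Σ i, σ i)) (h i)) f

theorem result (K : Type) [Field K] [Infinite K] (τ : Type) (σ : τ → Type) (n : ℕ)
    (f : FreeAlgebra K τ) (h : ∀ i, FreeAlgebra K (σ i))
    (hh : ∀ i, ∃ x y : σ i → K, FreeAlgebra.lift K x (h i) ≠ FreeAlgebra.lift K y (h i))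
    (hn : n.Prime) (hn2 : n ≠ 2) (hcen : IsNuCentral n n (subst f h)) :
    2 ^ n ≤ {w : List τ | w ≠ [] ∧ coef f w ≠ 0}.ncard := by
  classical
  obtain ⟨m, rfl⟩ : ∃ m, n = m + 1 := ⟨n - 1, by have := hn.pos; omega⟩
  have hm : 0 < m := by have := hn.two_le; omega
  have h1 := (Pool.Agent.Results.MP_5d2531_al.BlockTriangular.result (m + 1) hn hn2
    (subst f h) hcen).1 m 1 hm one_pos rfl
  have hex : ∃ l : List τ, l ≠ [] ∧ coef f l ≠ 0 := by
    by_contra hcon
    push Not at hcon
    have hf : f = algebraMap K (FreeAlgebra K τ) (coef f []) := Q123.NW.eq_const f hcon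
    have hF : subst f h = algebraMap K _ (coef f []) := by
      rw [hf]
      unfold subst
      rw [AlgHom.commutes, ← hf]
    obtain ⟨-, ⟨-, X0, hX0⟩, h3⟩ := hcen
    have h4 : IsCentral (m + 1) (subst f h ^ 1) := by
      rw [pow_one]
      refine ⟨fun X => ⟨coef f [], ?_⟩, X0, fun h0 => hX0 ?_⟩
      · rw [hF, AlgHom.commutes]
        rfl
      · rw [map_pow, h0, zero_pow hn.ne_zero]
    have h5 := h3 1 one_pos h4
    omega
  obtain ⟨w₀, hw₀, hfw⟩ := hex
  exact Q123.NW.card_of_subst_free (m + 1) f h hh _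
    (fun X hX => Q123.NW.upper_of_blocks _ _ h1 X hX) w₀ hw₀ hfw

end Pool.Agent.Results.MP_5d2531_al.DisjointSubstitution
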