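import Mathlib
import Pool.Agent.Q220.NC.Deg

/-!
# `n`-central polynomials which are linear in one variable

`K` is an infinite field which contains a primitive `n`-th root of unity `ζ`, and `n` is a prime.
Two polynomials `f`, `g` which are not identities of `M_n(K)` and satisfy `f g = ζ g f` on `M_n(K)`
are both `n`-central, and so is their commutator.  Conversely, if `f` is `n`-central then, with a
new variable `t`, the polynomial
`F = ∑_{j < n} ζ ^ (n - j) f ^ j t f ^ (n - j)`, which is linear in `t`, is not an identity, and
`f F = ζ F f` on `M_n(K)`.  So if there is an `n`-central polynomial at all, then there is one in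
three variables `x`, `y`, `t` which is linear in `t`, homogeneous in `x` and homogeneous in `y`; it
can be taken to be the commutator of two `n`-central polynomials.  On the other hand no
`n`-central polynomial, `n ≥ 5`, has degree at most one in all variables but one (starting file
`TwoNonlinearVariables`): the least number of variables in which an `n`-central polynomial is not
linear is two (if there is any), and there is then one with exactly two such variables and one
variable in which it is linear.

Idea of the proof.  For invertible matrices with `M Y = ζ Y M` the vectors `Y ^ k v`, `v` an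
eigenvector of `M`, form a basis of eigenvectors of `M` with distinct eigenvalues, and a matrix
which commutes with `M` and `Y`, for instance `M ^ n` or `Y ^ n`, is scalar.  `F` is, up to the
scalar `f ^ n`, the projection of `t` to the `ζ`-eigenspace of the conjugation by `f`.  It is not
identically zero: as `f` is not scalar valued this holds for some power `ζ ^ k` in place of `ζ`,
and then one can take for `t` a suitable power of the polynomial which belongs to `ζ ^ k`; here one
uses that a polynomial which is not an identity of `M_n(K)` has an invertible value.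
-/

set_option autoImplicit false

namespace Pool.Agent.Results.MP_5d2531_al.LinearInOneVariable

/-- Every value of `f` on `n × n` matrices over `K` is a scalar matrix. -/
def ScalarValued {K : Type} [Field K] {σ : Type} (n : ℕ) (f : FreeAlgebra K σ) : Prop :=
  ∀ X : σ → Matrix (Fin n) (Fin n) K, ∃ c : K, FreeAlgebra.lift K X f = Matrix.scalar (Fin n) c

/-- `f` vanishes on `n × n` matrices over `K`. -/
def IsIdentity {K : Type} [Field K] {σ : Type} (n : ℕ) (f : FreeAlgebra K σ) : Prop :=
  ∀ X : σ → Matrix (Fin n) (Fin n) K, FreeAlgebra.lift K X f = 0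

/-- `f` is central for `M_n(K)`: all values are scalar and `f` is not identically zero. -/
def IsCentral {K : Type} [Field K] {σ : Type} (n : ℕ) (f : FreeAlgebra K σ) : Prop :=
  ScalarValued n f ∧ ∃ X : σ → Matrix (Fin n) (Fin n) K, FreeAlgebra.lift K X f ≠ 0

/-- `f` is `ν`-central for `M_n(K)`: `ν` is the least positive integer with `f ^ ν` central. -/
def IsNuCentral {K : Type} [Field K] {σ : Type} (n ν : ℕ) (f : FreeAlgebra K σ) : Prop :=
  0 < ν ∧ IsCentral n (f ^ ν) ∧ ∀ μ : ℕ, 0 < μ → IsCentral n (f ^ μ) → ν ≤ μ

/-- `f` is multihomogeneous of multidegree `e`: it is a linear combination of words in which the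
letter `i` occurs exactly `e i` times, for every `i`. -/
def Multihomogeneous {K : Type} [Field K] {σ : Type} [DecidableEq σ] (e : σ → ℕ)
    (f : FreeAlgebra K σ) : Prop :=
  f ∈ Submodule.span K {u : FreeAlgebra K σ | ∃ l : List σ,
    (∀ i, l.count i = e i) ∧ u = (l.map (FreeAlgebra.ι K)).prod}

/-- The polynomial `f` in the larger set of variables: the variables are `some i`, and there is
one more variable, `t = none`. -/
noncomputable def emb {K : Type} [Field K] {σ : Type} (f : FreeAlgebra K σ) :
    FreeAlgebra K (Option σ) :=
  FreeAlgebra.lift K (fun i => FreeAlgebra.ι K (some i)) f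

/-- `F = ∑_{j < n} ζ ^ (n - j) f ^ j t f ^ (n - j)`, where `t = none` is the new variable. -/
noncomputable def linearForm {K : Type} [Field K] {σ : Type} (ζ : K) (n : ℕ)
    (f : FreeAlgebra K σ) : FreeAlgebra K (Option σ) :=
  ∑ j ∈ Finset.range n, ζ ^ (n - j) • (emb f ^ j * FreeAlgebra.ι K none * emb f ^ (n - j))

/-- Let `K` be an infinite field with a primitive `n`-th root of unity `ζ`, `n` a prime.
1. If `f`, `g` are not identities of `M_n(K)` and `f g - ζ g f` is an identity, then `f`, `g` and
   the commutator `f g - g f` are `n`-central for `M_n(K)`.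
2. If `f` is `n`-central and `F` is its `linearForm` in the new variable `t`, then `F` is not an
   identity, `f F - ζ F f` is an identity, and `F` and `f F - F f` are `n`-central.
3. If there is an `n`-central polynomial for `M_n(K)` in any set of variables, then there is one
   `f` in two variables `x`, `y`, homogeneous in each of them, and then `F` and `f F - F f` have
   degree one in `t` and are homogeneous in `x` and in `y`. -/
theorem result (K : Type) [Field K] [Infinite K] (n : ℕ) (hn : n.Prime) (ζ : K)
    (hζ : IsPrimitiveRoot ζ n) :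
    (∀ (σ : Type) (f g : FreeAlgebra K σ), ¬ IsIdentity n f → ¬ IsIdentity n g →
      IsIdentity n (f * g - ζ • (g * f)) →
      IsNuCentral n n f ∧ IsNuCentral n n g ∧ IsNuCentral n n (f * g - g * f)) ∧
    (∀ (σ : Type) (f : FreeAlgebra K σ), IsNuCentral n n f →
      ¬ IsIdentity n (linearForm ζ n f) ∧
      IsIdentity n (emb f * linearForm ζ n f - ζ • (linearForm ζ n f * emb f)) ∧
      IsNuCentral n n (linearForm ζ n f) ∧
      IsNuCentral n n (emb f * linearForm ζ n f - linearForm ζ n f * emb f)) ∧
    ((∃ (σ : Type) (f : FreeAlgebra K σ), IsNuCentral n n f) →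
      ∃ (e : Fin 2 → ℕ) (f : FreeAlgebra K (Fin 2)), Multihomogeneous e f ∧
        IsNuCentral n n f ∧
        Multihomogeneous (fun o => o.elim 1 (fun i => n * e i)) (linearForm ζ n f) ∧
        Multihomogeneous (fun o => o.elim 1 (fun i => (n + 1) * e i))
          (emb f * linearForm ζ n f - linearForm ζ n f * emb f)) := by
  have key : ∀ {σ : Type} (f : FreeAlgebra K σ), IsNuCentral n n f →
      Q220.NC.SV n (f ^ n) ∧ ¬ Q220.NC.SV n f := by
    rintro σ f ⟨-, ⟨h1, X, hX⟩, h2⟩
    refine ⟨h1, fun hcon => ?_⟩
    have h3 : IsCentral n (f ^ 1) := by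
      rw [pow_one]
      refine ⟨hcon, X, fun h0 => hX ?_⟩
      rw [map_pow, h0, zero_pow hn.ne_zero]
    have h4 := h2 1 one_pos h3
    have := hn.two_le
    omega
  refine ⟨?_, ?_, ?_⟩
  · intro σ f g hf hg h
    exact ⟨(Q220.NC.nu_of_two hn hζ hf hg h).1, (Q220.NC.nu_of_two hn hζ hf hg h).2,
      Q220.NC.comm_nu hn hζ hf hg h⟩
  · intro σ f hf
    obtain ⟨h1, h2⟩ := key f hf
    have h3 := Q220.NC.twist_Idt hn hζ h1 h2
    have h4 := Q220.NC.twist_rel hζ.pow_eq_one h1
    exact ⟨h3, h4, Q220.NC.twist_nu hn hζ h1 h2, Q220.NC.comm_nu hn hζ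
      (Q220.NC.emb_Idt fun h0 => h2 (Q220.NC.SV_of_Idt h0)) h3 h4⟩
  · rintro ⟨σ, f0, hf0⟩
    obtain ⟨h1, h2⟩ := key f0 hf0
    obtain ⟨e, f, hf1, hf2, hf3⟩ := Q220.NC.to_bihom hn h1 h2
    have h3 : Q220.NC.Hm e f := hf1
    have h4 : Q220.NC.Hm (fun o : Option (Fin 2) => o.elim 1 (fun i => n * e i))
      (Q220.NC.twist ζ n f) := h3.twist ζ n
    refine ⟨e, f, hf1, Q220.NC.nu_of hn f hf2 hf3, h4, Submodule.sub_mem _ ?_ ?_⟩
    · have h5 := h3.emb.mul h4
      have e1 : (fun o : Option (Fin 2) => (o.elim 0 e) + o.elim 1 (fun i => n * e i)) =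
          fun o => o.elim 1 (fun i => (n + 1) * e i) := by
        funext o
        rcases o with _ | i
        · rfl
        · simp only [Option.elim_some]; ring
      rw [e1] at h5
      exact h5
    · have h5 := h4.mul h3.emb
      have e1 : (fun o : Option (Fin 2) => o.elim 1 (fun i => n * e i) + (o.elim 0 e)) =
          fun o => o.elim 1 (fun i => (n + 1) * e i) := by
        funext o
        rcases o with _ | i
        · rfl
        · simp only [Option.elim_some]; ring
      rw [e1] at h5
      exact h5

end Pool.Agent.Results.MP_5d2531_al.LinearInOneVariable
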