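import Mathlib
import Pool.Agent.Q220.NC.Bim

/-!
# The faces of the Newton polytope of an `n`-central polynomial are `n`-central

Give each variable `x_i` an arbitrary integer weight `w i` (of any sign).  For an `n`-central
polynomial `f`, `n` prime, let `D` be the largest weight for which the part of weight `D` of `f` is
not scalar valued.  Then this part is `n`-central itself; if `n ≠ 0` in `K`, all parts of larger
weight are identities of `M_n(K)`, so that it is the leading part of `f` modulo the identities of
`M_n(K)`.  As the weights are arbitrary this concerns all faces of the Newton polytope of `f` (of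
the convex hull of the multidegrees of the multihomogeneous parts which are not identities), in
particular the vertices.  Consequently, if an `n`-central polynomial for `M_n(K)` exists, then there
is one in two variables `x`, `y` which is homogeneous in `x` and homogeneous in `y`.  Take one with
the least degree in `y` and then with the least degree in `x`.  Modulo scalars (and exactly, if
`n ≠ 0` in `K`) it is invariant under `x ↦ x + s` and under `y ↦ y + g(x)` for all polynomials
`g`; hence it remains `n`-central if `y` is replaced by any nonzero `∑ c_{ij} x ^ i y x ^ j`, for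
example by an iterated commutator `[x, [x, ..., [x, y]]]`.

Idea of the proof.  `f (T ^ w(i) X_i)` is a Laurent polynomial `P` in a central variable `T` with
matrix coefficients, and `P ^ n` has scalar coefficients.  If `P` had a coefficient `c T ^ m` with
`c ≠ 0` scalar above the largest nonscalar coefficient `A T ^ D`, then the coefficient of
`T ^ ((n - 1) m + D)` in `[P ^ n, Z] = 0` would be `n c ^ (n - 1) [A, Z]`; so for `n ≠ 0` in `K` there is
none, at a generic point, and `A ^ n` is the leading coefficient of `P ^ n`.  In characteristic `n`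
the scalar coefficients can be split off, `(c + R) ^ n = c ^ n + R ^ n`.  The same applies to the
families `f (x, y + T x ^ k)` and `f (x + T, y)`, whose higher coefficients have smaller degree in
`y`, respectively in `x`.  For `X` in a dense open set every matrix `Y` is the sum of a value of
`∑ c_{ij} X ^ i Y' X ^ j` and of a polynomial in `X`.  (I owe the idea to use these families to
another member of the team, helper12.)
-/

set_option autoImplicit false

namespace Pool.Agent.Results.MP_5d2531_al.NewtonFaces

/-- Every value of `f` on `n × n` matrices over `K` is a scalar matrix. -/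
def ScalarValued {K : Type} [Field K] {σ : Type} (n : ℕ) (f : FreeAlgebra K σ) : Prop :=
  ∀ X : σ → Matrix (Fin n) (Fin n) K, ∃ c : K, FreeAlgebra.lift K X f = Matrix.scalar (Fin n) c

/-- `f` vanishes on `n × n` matrices over `K`. -/
def IsIdentity {K : Type} [Field K] {σ : Type} (n : ℕ) (f : FreeAlgebra K σ) : Prop :=
  ∀ X : σ → Matrix (Fin n) (Fin n) K, FreeAlgebra.lift K X f = 0

/-- `f` is central for `M_n(K)`: all values are scalar and `f` is not identically zero. -/
def IsCentral {K : Type} [Field K] {σ : Type} (n : ℕ) (f : FreeAlgebra K σ) : Prop :=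
  ScalarValued n f ∧ ∃ X : σ → Matrix (Fin n) (Fin n) K, FreeAlgebra.lift K X f ≠ 0

/-- `f` is `ν`-central for `M_n(K)`: `ν` is the least positive integer with `f ^ ν` central. -/
def IsNuCentral {K : Type} [Field K] {σ : Type} (n ν : ℕ) (f : FreeAlgebra K σ) : Prop :=
  0 < ν ∧ IsCentral n (f ^ ν) ∧ ∀ μ : ℕ, 0 < μ → IsCentral n (f ^ μ) → ν ≤ μ

/-- The part of weight `d` of `f`, that is, the sum of the terms `c x_i x_j ⋯ x_k` of `f` with
`w i + w j + ⋯ + w k = d`.  It is the coefficient of `T ^ d` in the polynomial
`f (T ^ w(i) x_i)`, `T` a central variable with inverse (the element `single d a` of the additive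
monoid algebra of `ℤ` over the free algebra stands for `a T ^ d`). -/
noncomputable def part {K : Type} [Field K] {σ : Type} (w : σ → ℤ) (d : ℤ)
    (f : FreeAlgebra K σ) : FreeAlgebra K σ :=
  (FreeAlgebra.lift K (fun i => AddMonoidAlgebra.single (w i) (FreeAlgebra.ι K i)) f).coeff d

/-- `f` is multihomogeneous of multidegree `e`: it is a linear combination of words in which the
letter `i` occurs exactly `e i` times, for every `i`. -/
def Multihomogeneous {K : Type} [Field K] {σ : Type} [DecidableEq σ] (e : σ → ℕ)
    (f : FreeAlgebra K σ) : Prop :=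
  f ∈ Submodule.span K {u : FreeAlgebra K σ | ∃ l : List σ,
    (∀ i, l.count i = e i) ∧ u = (l.map (FreeAlgebra.ι K)).prod}

/-- The polynomial `∑ c_{ij} x ^ i y x ^ j` in `x`, `y`, where `p = ∑ c_{ij} u ^ i v ^ j`. -/
noncomputable def twoSided {K : Type} [Field K] (p : MvPolynomial (Fin 2) K) :
    FreeAlgebra K (Fin 2) :=
  ∑ m ∈ p.support, p.coeff m •
    (FreeAlgebra.ι K (0 : Fin 2) ^ m 0 * FreeAlgebra.ι K 1 * FreeAlgebra.ι K 0 ^ m 1)

/-- Let `K` be an infinite field of any characteristic and `n` a prime.
1. Let `f` be an `n`-central polynomial for `M_n(K)` and `w` any integer weights of the variables.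
   There is a weight `D` such that the part of weight `D` of `f` is `n`-central, and the parts of
   weight larger than `D` are scalar valued, and are even identities of `M_n(K)` if `n ≠ 0` in `K`.
2. If there is an `n`-central polynomial for `M_n(K)` in any set of variables then there is one
   `f` in two variables `x`, `y`, homogeneous in `x` and in `y`, such that
   `f (X + s, Y + g(X)) - f (X, Y)` is scalar, and zero if `n ≠ 0` in `K`, for all matrices `X`,
   `Y`, all `s` in `K` and all polynomials `g`, and such that `f (x, ∑ c_{ij} x ^ i y x ^ j)` is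
   `n`-central for all `p = ∑ c_{ij} u ^ i v ^ j ≠ 0`. -/
theorem result (K : Type) [Field K] [Infinite K] (n : ℕ) (hn : n.Prime) (σ : Type) :
    (∀ f : FreeAlgebra K σ, IsNuCentral n n f → ∀ w : σ → ℤ, ∃ D : ℤ,
      IsNuCentral n n (part w D f) ∧ (∀ d, D < d → ScalarValued n (part w d f)) ∧
      ((n : K) ≠ 0 → ∀ d, D < d → IsIdentity n (part w d f))) ∧
    ((∃ f : FreeAlgebra K σ, IsNuCentral n n f) →
      ∃ (e : Fin 2 → ℕ) (f : FreeAlgebra K (Fin 2)), Multihomogeneous e f ∧
        IsNuCentral n n f ∧
        (∀ (X Y : Matrix (Fin n) (Fin n) K) (s : K) (g : Polynomial K),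
          (∃ c : K, FreeAlgebra.lift K ![X + Matrix.scalar (Fin n) s,
              Y + Polynomial.aeval X g] f - FreeAlgebra.lift K ![X, Y] f =
            Matrix.scalar (Fin n) c) ∧
          ((n : K) ≠ 0 → FreeAlgebra.lift K ![X + Matrix.scalar (Fin n) s,
              Y + Polynomial.aeval X g] f = FreeAlgebra.lift K ![X, Y] f)) ∧
        ∀ p : MvPolynomial (Fin 2) K, p ≠ 0 →
          IsNuCentral n n (FreeAlgebra.lift K ![FreeAlgebra.ι K (0 : Fin 2), twoSided p] f)) := by
  have key : ∀ f : FreeAlgebra K σ, IsNuCentral n n f →
      Q220.NC.SV n (f ^ n) ∧ ¬ Q220.NC.SV n f := by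
    rintro f ⟨-, ⟨h1, X, hX⟩, h2⟩
    refine ⟨h1, fun hcon => ?_⟩
    have h3 : IsCentral n (f ^ 1) := by
      rw [pow_one]
      refine ⟨hcon, X, fun h0 => hX ?_⟩
      rw [map_pow, h0, zero_pow hn.ne_zero]
    have h4 := h2 1 one_pos h3
    have := hn.two_le
    omega
  constructor
  · intro f hf w
    obtain ⟨h1, h2⟩ := key f hf
    obtain ⟨D, hD1, hD2⟩ := Q220.NC.exists_top w f h2
    exact ⟨D, Q220.NC.nu_of hn _ (Q220.NC.pow_part_SV hn h1 w hD1 hD2) hD1, hD2,
      fun hnK d hd => Q220.NC.above_Idt hn.ne_zero hnK h1 w hD1 hD2 d hd⟩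
  · rintro ⟨f, hf⟩
    obtain ⟨h1, h2⟩ := key f hf
    obtain ⟨a, b, g, hg1, hg2, hg3, hg4, hg5⟩ := Q220.NC.exists_min hn h1 h2
    obtain ⟨hy1, hy2⟩ := Q220.NC.inv_y hn hg1 hg2 hg3 hg4
    have hx := Q220.NC.inv_x hn hg1 hg2 hg3 hg5
    refine ⟨![a, b], g, ?_, Q220.NC.nu_of hn g hg2 hg3, ?_, ?_⟩
    · refine Q220.NC.Sp_mono ?_ hg1
      intro l hl i
      have h3 := hl i
      fin_cases i
      · simpa using h3
      · simpa using h3
    · intro X Y s p
      constructor
      · apply Pool.Agent.H552R3.PC.scalar_of_comm
        intro Z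
        have h3 := hy1 X Y Z p
        have h4 := (hx X (Y + Polynomial.aeval X p) s).1 Z
        have e : ∀ A B C : Matrix (Fin n) (Fin n) K, (A - B) * Z = Z * (A - B) →
            (B - C) * Z = Z * (B - C) → (A - C) * Z = Z * (A - C) := by
          intro A B C h3 h4
          have : A - C = (A - B) + (B - C) := by abel
          rw [this, add_mul, mul_add, h3, h4]
        exact e _ _ _ h4 h3
      · intro hnK
        rw [(hx X (Y + Polynomial.aeval X p) s).2 hnK, hy2 hnK]
    · intro p hp
      refine Q220.NC.nu_of hn _ ?_ fun hcon => hg3 (Q220.NC.SV_of_bi hy1 hp hcon)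
      intro X
      rw [← map_pow, Pool.Agent.H552R3.PC.lift_map]
      exact hg2 _

end Pool.Agent.Results.MP_5d2531_al.NewtonFaces
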