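import Pool.Agent.Q123.NW.Subst
import Pool.Agent.Results.MP_5d2531_al.BlockTriangular

/-!
Problem MP_5d2531_al (`n`-central polynomials): every nonempty word that occurs in an `n`-central
polynomial, `n` an odd prime, has at least `2 ^ n` rearrangements that occur in it.
-/

set_option autoImplicit false

namespace Pool.Agent.Results.MP_5d2531_al.WordRearrangements

/-- Every value of `f` on `n × n` matrices over `K` is a scalar matrix. -/
def ScalarValued {K : Type} [Field K] {σ : Type} (n : ℕ) (f : FreeAlgebra K σ) : Prop :=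
  ∀ X : σ → Matrix (Fin n) (Fin n) K, ∃ c : K, FreeAlgebra.lift K X f = Matrix.scalar (Fin n) c

/-- `f` is central for `M_n(K)`: all values are scalar and `f` is not identically zero. -/
def IsCentral {K : Type} [Field K] {σ : Type} (n : ℕ) (f : FreeAlgebra K σ) : Prop :=
  ScalarValued n f ∧ ∃ X : σ → Matrix (Fin n) (Fin n) K, FreeAlgebra.lift K X f ≠ 0

/-- `f` is `ν`-central for `M_n(K)`: `ν` is the least positive integer with `f ^ ν` central. -/
def IsNuCentral {K : Type} [Field K] {σ : Type} (n ν : ℕ) (f : FreeAlgebra K σ) : Prop :=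
  0 < ν ∧ IsCentral n (f ^ ν) ∧ ∀ μ : ℕ, 0 < μ → IsCentral n (f ^ μ) → ν ≤ μ

/-- The coefficient of the word `l` in `f`. -/
noncomputable def coef {K : Type} [Field K] {σ : Type} (f : FreeAlgebra K σ) (l : List σ) : K :=
  (FreeAlgebra.equivMonoidAlgebraFreeMonoid f).coeff (FreeMonoid.ofList l)

/-- The words that occur in `f` and are rearrangements of the word `l`. -/
def rearrangements {K : Type} [Field K] {σ : Type} (f : FreeAlgebra K σ) (l : List σ) :
    Set (List σ) :=
  {l' | l'.Perm l ∧ coef f l' ≠ 0}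

theorem result (K : Type) [Field K] [Infinite K] (σ : Type) (n : ℕ) (f : FreeAlgebra K σ)
    (hn : n.Prime) (hn2 : n ≠ 2) (hcen : IsNuCentral n n f)
    (l : List σ) (hne : l ≠ []) (hl : coef f l ≠ 0) :
    2 ^ n ≤ (rearrangements f l).ncard := by
  classical
  obtain ⟨m, rfl⟩ : ∃ m, n = m + 1 := ⟨n - 1, by have := hn.pos; omega⟩
  have hm : 0 < m := by have := hn.two_le; omega
  have h1 := (Pool.Agent.Results.MP_5d2531_al.BlockTriangular.result (m + 1) hn hn2 f hcen).1
    m 1 hm one_pos rfl
  set c : K := coef f [] with hc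
  set g : FreeAlgebra K σ := f - algebraMap K (FreeAlgebra K σ) c with hg
  have h2 : ∀ X : σ → Matrix (Fin (m + 1)) (Fin (m + 1)) K,
      (∀ i, ∀ a b : Fin (m + 1), b < a → X i a b = 0) → FreeAlgebra.lift K X g = 0 := by
    intro X hX
    have h3 := Q123.NW.upper_of_blocks f c h1 X hX
    rw [hg, map_sub, h3, AlgHom.commutes, sub_self]
  have h3 : ∀ w : List σ, w ≠ [] → Q123.NW.coef g w = coef f w := fun w hw =>
    Pool.Agent.Results.MP_5d2531_al.BlockTriangular.cf_sub f c w hw
  have h4 := Q123.NW.identity_rearrangements (m + 1) g h2 l (by rw [h3 l hne]; exact hl)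
  have h5 : {l' : List σ | l'.Perm l ∧ Q123.NW.coef g l' ≠ 0} = rearrangements f l := by
    ext w
    constructor
    · rintro ⟨hw, h6⟩
      have hw0 : w ≠ [] := by
        rintro rfl
        exact hne (List.nil_perm.1 hw)
      exact ⟨hw, by rw [← h3 w hw0]; exact h6⟩
    · rintro ⟨hw, h6⟩
      have hw0 : w ≠ [] := by
        rintro rfl
        exact hne (List.nil_perm.1 hw)
      exact ⟨hw, by rw [h3 w hw0]; exact h6⟩
  rwa [h5] at h4

end Pool.Agent.Results.MP_5d2531_al.WordRearrangements
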